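import Pool.Agent.Lib.MP_24ae9b_co.TwoLower
import Pool.Agent.Lib.MP_24ae9b_co.TwoUpper

/-! The least total size of a union-closed family with prescribed numbers of members and of
points in the union. -/

namespace Pool.Agent.Results.MP_24ae9b_co.TwoParameter

open Pool.Agent.Lib.MP_24ae9b_co

theorem value_eq (K t n : ℕ) :
    2 * ((n : ℤ) + K * 2 ^ (K - 1)
        + ∑ i ∈ Finset.range t, ((K : ℤ) + 1 - ((Nat.digits 2 i).sum : ℕ))) + 2 * (E t : ℤ)
      = 2 * n + K * 2 ^ K + 2 * ((K + 1) * t) := by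
  have h1 : (2 : ℤ) * (K * 2 ^ (K - 1)) = K * 2 ^ K := by
    rcases K with _ | K
    · simp
    · rw [Nat.add_sub_cancel, pow_succ]; ring
  have h2 : (E t : ℤ) = ∑ i ∈ Finset.range t, (((Nat.digits 2 i).sum : ℕ) : ℤ) := by
    rw [E_eq_sum, Nat.cast_sum]
  rw [Finset.sum_sub_distrib, ← h2, Finset.sum_const, Finset.card_range, nsmul_eq_mul]
  linarith

theorem result (K t n : ℕ) (ht : t < 2 ^ K) (hn : K + 2 ≤ n) :
    IsLeast {w : ℤ | ∃ F : Finset (Finset ℕ), (∀ A ∈ F, ∀ B ∈ F, A ∪ B ∈ F) ∧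
        F.card = 2 ^ K + t + 1 ∧ (F.biUnion id).card = n ∧ w = ∑ A ∈ F, (A.card : ℤ)}
      ((n : ℤ) + K * 2 ^ (K - 1)
        + ∑ i ∈ Finset.range t, ((K : ℤ) + 1 - ((Nat.digits 2 i).sum : ℕ))) := by
  have hv := value_eq K t n
  constructor
  · obtain ⟨F, h1, h2, h3, h4⟩ := two_upper K t n ht.le hn
    refine ⟨F, h1, by omega, h3, ?_⟩
    have h5 : 2 * (∑ A ∈ F, (A.card : ℤ)) + 2 * (E t : ℤ)
        = 2 * n + K * 2 ^ K + 2 * ((K + 1) * t) := by exact_mod_cast h4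
    linarith
  · rintro w ⟨F, h1, h2, h3, rfl⟩
    have h4 := two_lower F h1 K t ht (by omega) (by omega)
    rw [h3] at h4
    have h5 : 2 * (n : ℤ) + K * 2 ^ K + 2 * ((K + 1) * t)
        ≤ 2 * (∑ A ∈ F, (A.card : ℤ)) + 2 * (E t : ℤ) := by exact_mod_cast h4
    linarith

end Pool.Agent.Results.MP_24ae9b_co.TwoParameter
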