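import Pool.Agent.Lib.MP_24ae9b_co.Reimer

/-! Wojcik's conjecture on the minimum density of union-closed families. -/

namespace Pool.Agent.Results.MP_24ae9b_co.Wojcik

open Finset Pool.Agent.Lib.MP_24ae9b_co

/-- A family of finite sets is union-closed. -/
def UnionClosed (F : Finset (Finset ℕ)) : Prop := ∀ A ∈ F, ∀ B ∈ F, A ∪ B ∈ F

/-- The density of a family: total size of its members over (size of the union) times (number of members). -/
def density (F : Finset (Finset ℕ)) : ℚ :=
  (∑ A ∈ F, (A.card : ℚ)) / (((F.biUnion id).card : ℚ) * (F.card : ℚ))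

/-- The family of all subsets of `{1,...,k}` together with `{1,...,n}`. -/
def W (n k : ℕ) : Finset (Finset ℕ) := (Finset.Icc 1 k).powerset ∪ {Finset.Icc 1 n}

/-- The value of the density of `W n k`. -/
def g (n k : ℕ) : ℚ := ((k : ℚ) * 2 ^ k + 2 * n) / (2 * n * (2 ^ k + 1))

theorem W_biUnion {n k : ℕ} (h : k ≤ n) : (W n k).biUnion id = Finset.Icc 1 n := by
  ext x
  simp only [W, Finset.mem_biUnion, Finset.mem_union, Finset.mem_powerset, Finset.mem_singleton, id]
  constructor
  · rintro ⟨A, hA | rfl, hx⟩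
    · have := hA hx
      rw [Finset.mem_Icc] at this ⊢
      omega
    · exact hx
  · intro hx
    exact ⟨_, Or.inr rfl, hx⟩

theorem W_unionClosed {n k : ℕ} (h : k ≤ n) : UnionClosed (W n k) := by
  have hs : Finset.Icc 1 k ⊆ Finset.Icc 1 n := Finset.Icc_subset_Icc_right h
  intro A hA B hB
  simp only [W, Finset.mem_union, Finset.mem_powerset, Finset.mem_singleton] at hA hB ⊢
  rcases hA with hA | rfl <;> rcases hB with hB | rfl
  · exact Or.inl (Finset.union_subset hA hB)
  · exact Or.inr (Finset.union_eq_right.2 (hA.trans hs))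
  · exact Or.inr (Finset.union_eq_left.2 (hB.trans hs))
  · exact Or.inr (Finset.union_idempotent _)

theorem sum_card_powerset (S : Finset ℕ) :
    2 * ∑ A ∈ S.powerset, (A.card : ℚ) = S.card * 2 ^ S.card := by
  induction S using Finset.induction_on with
  | empty => simp
  | insert x S hx ih =>
    rw [Finset.sum_powerset_insert hx, Finset.card_insert_of_notMem hx]
    have : ∑ A ∈ S.powerset, ((insert x A).card : ℚ) = ∑ A ∈ S.powerset, ((A.card : ℚ) + 1) := by
      apply Finset.sum_congr rfl
      intro A hA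
      rw [Finset.card_insert_of_notMem (fun h => hx (Finset.mem_powerset.1 hA h))]
      push_cast; ring
    rw [this, Finset.sum_add_distrib]
    simp only [Finset.sum_const, Finset.card_powerset, nsmul_eq_mul, mul_one]
    push_cast
    rw [pow_succ]
    linarith

theorem density_W {n k : ℕ} (h : k < n) : density (W n k) = g n k := by
  have hd : Disjoint (Finset.Icc 1 k).powerset {Finset.Icc 1 n} := by
    rw [Finset.disjoint_singleton_right, Finset.mem_powerset]
    intro hs
    have := hs (show n ∈ Finset.Icc 1 n by rw [Finset.mem_Icc]; omega)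
    rw [Finset.mem_Icc] at this
    omega
  have hs := sum_card_powerset (Finset.Icc 1 k)
  unfold density g
  rw [W_biUnion h.le]
  unfold W
  rw [Finset.sum_union hd, Finset.card_union_of_disjoint hd]
  simp only [Finset.sum_singleton, Finset.card_powerset, Finset.card_singleton, Nat.card_Icc,
    Nat.add_sub_cancel] at hs ⊢
  have hn : (0 : ℚ) < n := by exact_mod_cast (by omega : 0 < n)
  push_cast
  rw [div_eq_div_iff (by positivity) (by positivity), ← hs]
  ring

theorem g_step_up {n k : ℕ} (hn : 1 ≤ n) (h : n ≤ 2 ^ k) : g n k ≤ g n (k + 1) := by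
  have hn' : (0 : ℚ) < n := by exact_mod_cast hn
  have h' : (n : ℚ) ≤ 2 ^ k := by exact_mod_cast h
  have hp : (0 : ℚ) < 2 ^ k := by positivity
  have hk : (0 : ℚ) ≤ k := by positivity
  unfold g
  rw [div_le_div_iff₀ (by positivity) (by positivity), pow_succ]
  push_cast
  set p : ℚ := 2 ^ k
  have : 0 ≤ (n : ℚ) * (p * (2 * p + k + 2 - 2 * n)) := by
    apply mul_nonneg hn'.le
    apply mul_nonneg hp.le
    linarith
  nlinarith

theorem g_step_down {n k : ℕ} (hn : 1 ≤ n) (h : 2 ^ (k + 1) ≤ n) : g n (k + 1) ≤ g n k := by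
  have hn' : (0 : ℚ) < n := by exact_mod_cast hn
  have h' : (2 : ℚ) ^ (k + 1) ≤ n := by exact_mod_cast h
  have hp : (0 : ℚ) < 2 ^ k := by positivity
  have hk : (k : ℚ) + 1 ≤ 2 ^ k := by
    have := @Nat.lt_two_pow_self k
    exact_mod_cast this
  have hk0 : (0 : ℚ) ≤ k := by positivity
  unfold g
  rw [div_le_div_iff₀ (by positivity) (by positivity)]
  rw [pow_succ] at h' ⊢
  push_cast
  set p : ℚ := 2 ^ k
  have : 0 ≤ (n : ℚ) * (p * (2 * n - (2 * p + k + 2))) := by
    apply mul_nonneg hn'.le
    apply mul_nonneg hp.le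
    linarith
  nlinarith

theorem g_min {n : ℕ} (hn : 1 ≤ n) (k : ℕ) :
    min (g n (Nat.log 2 n)) (g n (Nat.clog 2 n)) ≤ g n k := by
  have hup : ∀ j, g n (Nat.clog 2 n) ≤ g n (Nat.clog 2 n + j) := by
    intro j
    induction j with
    | zero => exact le_rfl
    | succ j ih =>
      refine ih.trans (g_step_up hn ?_)
      exact (Nat.le_pow_clog (by norm_num) n).trans
        (Nat.pow_le_pow_right (by norm_num) (Nat.le_add_right _ _))
  have hdown : ∀ j i, i + j = Nat.log 2 n → g n (Nat.log 2 n) ≤ g n i := by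
    intro j
    induction j with
    | zero => intro i hi; rw [← hi]; exact le_rfl
    | succ j ih =>
      intro i hi
      refine (ih (i + 1) (by omega)).trans (g_step_down hn ?_)
      exact (Nat.pow_le_pow_right (by norm_num) (by omega)).trans
        (Nat.pow_log_le_self 2 (by omega : n ≠ 0))
  rcases le_or_gt k (Nat.log 2 n) with h | h
  · exact (min_le_left _ _).trans (hdown (Nat.log 2 n - k) k (by omega))
  · have hc : Nat.clog 2 n ≤ k := by
      have h1 : n < 2 ^ (Nat.log 2 n + 1) := Nat.lt_pow_succ_log_self (by norm_num) n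
      rw [Nat.clog_le_iff_le_pow (by norm_num)]
      exact h1.le.trans (Nat.pow_le_pow_right (by norm_num) h)
    obtain ⟨j, rfl⟩ := Nat.exists_eq_add_of_le hc
    exact (min_le_right _ _).trans (hup j)

theorem clog_lt {n : ℕ} (hn : 1 ≤ n) : Nat.clog 2 n < n := by
  obtain ⟨m, rfl⟩ : ∃ m, n = m + 1 := ⟨n - 1, by omega⟩
  have : Nat.clog 2 (m + 1) ≤ m := by
    rw [Nat.clog_le_iff_le_pow (by norm_num)]
    exact Nat.lt_two_pow_self
  omega

theorem lower (F : Finset (Finset ℕ)) (hne : F.Nonempty) (hF : UnionClosed F)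
    (hn : 1 ≤ (F.biUnion id).card) (G : ℚ) (hG : ∀ k, G ≤ g (F.biUnion id).card k) :
    G ≤ density F := by
  obtain ⟨n, hn'⟩ : ∃ n, n = (F.biUnion id).card := ⟨_, rfl⟩
  rw [← hn'] at hn hG
  have hnq : (0 : ℚ) < n := by exact_mod_cast hn
  have hm : 1 ≤ F.card := Finset.card_pos.2 hne
  have hmq : (0 : ℚ) < F.card := by exact_mod_cast hm
  have hhalf : n * F.card ≤ 2 * ∑ A ∈ F, A.card → G ≤ density F := by
    intro h
    have h' : (n : ℚ) * F.card ≤ 2 * ∑ A ∈ F, (A.card : ℚ) := by exact_mod_cast h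
    refine (hG 0).trans ?_
    unfold g density
    rw [← hn', div_le_div_iff₀ (by positivity) (by positivity)]
    simp only [Nat.cast_zero, pow_zero]
    nlinarith
  rcases hm.eq_or_lt with h1 | h1
  · apply hhalf
    obtain ⟨A, rfl⟩ := Finset.card_eq_one.1 h1.symm
    simp only [hn', Finset.singleton_biUnion, id, Finset.card_singleton, Finset.sum_singleton]
    omega
  · obtain ⟨K, k1, k2⟩ : ∃ K, 2 ^ K ≤ F.card - 1 ∧ F.card - 1 < 2 ^ (K + 1) :=
      ⟨Nat.log 2 (F.card - 1), Nat.pow_log_le_self 2 (by omega),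
        Nat.lt_pow_succ_log_self (by norm_num) _⟩
    obtain ⟨t, ht⟩ : ∃ t, F.card = 2 ^ K + 1 + t := ⟨F.card - 1 - 2 ^ K, by omega⟩
    have ht2 : t < 2 ^ K := by rw [pow_succ] at k2; omega
    have hT := total_size_bound F hF K t ht2 ht
    rw [← hn'] at hT
    rcases hT with h | h
    · exact hhalf h
    · have h' : 2 * (n : ℚ) + K * 2 ^ K + (K + 2) * t ≤ 2 * ∑ A ∈ F, (A.card : ℚ) := by
        exact_mod_cast h
      have g0 := hG K
      have g1 := hG (K + 1)
      unfold g at g0 g1
      rw [le_div_iff₀ (by positivity)] at g0 g1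
      rw [pow_succ] at g1
      push_cast at g1
      unfold density
      rw [← hn', le_div_iff₀ (by positivity), ht]
      push_cast
      have ht2' : (t : ℚ) < 2 ^ K := by exact_mod_cast ht2
      have ht0 : (0 : ℚ) ≤ t := by positivity
      have hp : (0 : ℚ) < 2 ^ K := by positivity
      set p : ℚ := 2 ^ K
      set s : ℚ := ∑ A ∈ F, (A.card : ℚ)
      have a0 := mul_le_mul_of_nonneg_left g0 (sub_nonneg.2 ht2'.le)
      have a1 := mul_le_mul_of_nonneg_left g1 ht0
      have a2 := mul_le_mul_of_nonneg_left h' hp.le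
      have a3 : p * (2 * (G * (n * (p + 1 + t)))) ≤ p * (2 * s) := by nlinarith
      have a4 := le_of_mul_le_mul_left a3 hp
      linarith

theorem result (n : ℕ) (hn : 1 ≤ n) :
    IsLeast {d : ℚ | ∃ F : Finset (Finset ℕ),
        F.Nonempty ∧ UnionClosed F ∧ (F.biUnion id).card = n ∧ d = density F}
      (min (density (W n (Nat.log 2 n))) (density (W n (Nat.clog 2 n)))) := by
  have hc : Nat.clog 2 n < n := clog_lt hn
  have hl : Nat.log 2 n < n := lt_of_le_of_lt (Nat.log_le_clog 2 n) hc
  have hW : ∀ k, k < n → density (W n k) ∈ {d : ℚ | ∃ F : Finset (Finset ℕ),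
        F.Nonempty ∧ UnionClosed F ∧ (F.biUnion id).card = n ∧ d = density F} := by
    intro k hk
    refine ⟨W n k, ⟨Finset.Icc 1 n, by simp [W]⟩, W_unionClosed hk.le, ?_, rfl⟩
    rw [W_biUnion hk.le]
    simp
  constructor
  · rcases min_choice (density (W n (Nat.log 2 n))) (density (W n (Nat.clog 2 n))) with h | h
    · rw [h]; exact hW _ hl
    · rw [h]; exact hW _ hc
  · rintro d ⟨F, hne, hF, hcard, rfl⟩
    rw [density_W hl, density_W hc]
    subst hcard
    exact lower F hne hF hn _ (g_min hn)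

end Pool.Agent.Results.MP_24ae9b_co.Wojcik
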