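import Pool.Agent.Lib.MP_24ae9b_co.SepMain
import Pool.Agent.Lib.MP_24ae9b_co.SepUpper

/-! The least total size of a point-separating union-closed family with prescribed numbers of
members and of points. -/

namespace Pool.Agent.Results.MP_24ae9b_co.XSeparating

open Pool.Agent.Lib.MP_24ae9b_co

theorem value_eq (K t c : ℕ) :
    2 * ((K : ℤ) * 2 ^ (K - 1)
        + ∑ i ∈ Finset.range t, ((K : ℤ) + 1 - ((Nat.digits 2 i).sum : ℕ))
        + ∑ i ∈ Finset.range c, ((K : ℤ) + 2 + i)) + 2 * (E t : ℤ) + c * c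
      = K * 2 ^ K + 2 * ((K + 1) * t) + 2 * ((K + 1 + c) * c) + c := by
  have h1 : (2 : ℤ) * (K * 2 ^ (K - 1)) = K * 2 ^ K := by
    rcases K with _ | K
    · simp
    · rw [Nat.add_sub_cancel, pow_succ]; ring
  have h2 : (E t : ℤ) = ∑ i ∈ Finset.range t, (((Nat.digits 2 i).sum : ℕ) : ℤ) := by
    rw [E_eq_sum, Nat.cast_sum]
  have h3 : 2 * ∑ i ∈ Finset.range c, ((K : ℤ) + 2 + i) + c * c = 2 * ((K + 1 + c) * c) + c := by
    induction c with
    | zero => simp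
    | succ c ih =>
      rw [Finset.sum_range_succ]
      push_cast
      linarith
  rw [Finset.sum_sub_distrib, ← h2, Finset.sum_const, Finset.card_range, nsmul_eq_mul]
  linarith

theorem result (K t c : ℕ) (ht1 : 1 ≤ t) (ht : t ≤ 2 ^ K) :
    IsLeast {w : ℤ | ∃ F : Finset (Finset ℕ), (∀ A ∈ F, ∀ B ∈ F, A ∪ B ∈ F) ∧
        (∀ x ∈ F.biUnion id, ∀ y ∈ F.biUnion id, x ≠ y → ∃ A ∈ F, ¬ (x ∈ A ↔ y ∈ A)) ∧
        F.card = 2 ^ K + t + c ∧ (F.biUnion id).card = K + 1 + c ∧ w = ∑ A ∈ F, (A.card : ℤ)}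
      ((K : ℤ) * 2 ^ (K - 1)
        + ∑ i ∈ Finset.range t, ((K : ℤ) + 1 - ((Nat.digits 2 i).sum : ℕ))
        + ∑ i ∈ Finset.range c, ((K : ℤ) + 2 + i)) := by
  have hv := value_eq K t c
  constructor
  · obtain ⟨F, h1, h2, h3, h4, h5, h6⟩ := sep_upper K t ht1 ht c
    have hN : F.biUnion id = Finset.range (K + 1 + c) := by
      apply Finset.Subset.antisymm
      · intro y hy
        obtain ⟨A, hA, hyA⟩ := Finset.mem_biUnion.1 hy
        exact h3 A hA hyA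
      · intro y hy
        exact Finset.mem_biUnion.2 ⟨_, h4, hy⟩
    refine ⟨F, h1, ?_, h2, by rw [hN, Finset.card_range], ?_⟩
    · intro x hx y hy
      rw [hN, Finset.mem_range] at hx hy
      exact h5 x hx y hy
    · have h7 : 2 * (∑ A ∈ F, (A.card : ℤ)) + 2 * (E t : ℤ) + c * c
          = K * 2 ^ K + 2 * ((K + 1) * t) + 2 * ((K + 1 + c) * c) + c := by exact_mod_cast h6
      linarith
  · rintro w ⟨F, h1, h2, h3, h4, rfl⟩
    have h5 := sep_lower F h1 h2 K t c ht h3 h4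
    have h7 : (K : ℤ) * 2 ^ K + 2 * ((K + 1) * t) + 2 * ((K + 1 + c) * c) + c
        ≤ 2 * (∑ A ∈ F, (A.card : ℤ)) + 2 * (E t : ℤ) + c * c := by exact_mod_cast h5
    linarith

end Pool.Agent.Results.MP_24ae9b_co.XSeparating
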